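import Mathlib
import Pool.Agent.Lib.helper1.OddBF

namespace Pool.Agent.Results.MP_e8ee11_co.Linear

open Finset

theorem real (n m : ℕ) (t : ℝ) (ht : 0 ≤ t) (a : Fin m → Fin n → ℝ)
    (ha : ∀ i, ∑ j, |a j i| ≤ t) :
    ∃ χ : Fin n → ℤ, (∀ i, χ i = 1 ∨ χ i = -1) ∧ ∀ j, |∑ i, a j i * χ i| ≤ t := by
  classical
  have hodd : ∀ (v : Fin m) (S : Finset (Fin n)),
      ∑ i, a v i * (if i ∈ Sᶜ then (1 : ℝ) else -1) =
        -∑ i, a v i * (if i ∈ S then (1 : ℝ) else -1) := by
    intro v S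
    rw [← sum_neg_distrib]
    refine sum_congr rfl fun i _ => ?_
    by_cases h : i ∈ S <;> simp [h]
  have hL : ∀ (v : Fin m) (N S S' : Finset (Fin n)), S \ N = S' \ N →
      ∑ i, a v i * (if i ∈ S then (1 : ℝ) else -1) -
        ∑ i, a v i * (if i ∈ S' then (1 : ℝ) else -1) ≤ 2 * ∑ i ∈ N, |a v i| := by
    intro v N S S' h
    rw [← sum_sub_distrib, mul_sum, ← sum_subset (subset_univ N)]
    · refine sum_le_sum fun i _ => ?_
      have := le_abs_self (a v i)
      have := neg_abs_le (a v i)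
      split_ifs <;> linarith
    · intro i _ hi
      have := Finset.ext_iff.1 h i
      simp only [mem_sdiff, hi, not_false_eq_true, and_true] at this
      simp [this]
  obtain ⟨S, hS⟩ := Pool.Agent.Lib.helper1.OddBF.bf
    (fun j (S : Finset (Fin n)) => ∑ i, a j i * (if i ∈ S then 1 else -1))
    (fun j i => |a j i|) t ht hodd (fun _ _ => abs_nonneg _) hL ha
  · refine ⟨fun i => if i ∈ S then 1 else -1, fun i => ?_, fun j => ?_⟩
    · by_cases h : i ∈ S <;> simp [h]
    · simpa [apply_ite] using hS j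

theorem result (n m t : ℕ) (S : Fin m → Finset (Fin n))
    (hS : ∀ i, (univ.filter fun j => i ∈ S j).card ≤ t) :
    ∃ χ : Fin n → ℤ, (∀ i, χ i = 1 ∨ χ i = -1) ∧ ∀ j, |∑ i ∈ S j, χ i| ≤ t := by
  classical
  obtain ⟨χ, h1, h2⟩ := real n m t (by positivity) (fun j i => if i ∈ S j then 1 else 0)
    fun i => by
      have : ∀ j, |if i ∈ S j then (1 : ℝ) else 0| = if i ∈ S j then (1 : ℝ) else 0 := by
        intro j; split_ifs <;> simp
      simp only [this, sum_boole]
      exact_mod_cast hS i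
  refine ⟨χ, h1, fun j => ?_⟩
  have := h2 j
  simp only [ite_mul, one_mul, zero_mul, sum_ite_mem, univ_inter] at this
  exact_mod_cast this

end Pool.Agent.Results.MP_e8ee11_co.Linear
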